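import Pool.Agent.Helper58.SF.StB

/-!
# Project SF (MP_a45945_gt), module WNX: surfaces which are graphs over a level
-/

set_option autoImplicit false

namespace Pool.Agent.Helper15.SF

open Set Topology Pool.Agent.Helper13.TR Pool.Agent.Helper58.SF
open Pool.Agent.Helper13.TW (IsArc Spl IsSCC dch Chn Splt GT CSy MP Val LR MCell StARB StARX StSCL StUAR StINF StLIN StAC1 StSDM)

/-- Surfaces which are graphs over a level satisfy the winding number interface. -/
theorem hWNX : StRCK → StWNL → StWNX := by
  intro hR hW P _ r R dg hG a lam S ha0 ha1 hl hlam hS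
  obtain ⟨r', R', hG', hU, hD, hL⟩ :=
    hR P r R dg hG a ((1 + a) / 2) lam ha0 (by linarith) (by linarith) hl hlam
  have hS' : S = {y : P | r' y = (1 + a) / 2} := by
    rw [hS]
    ext y
    exact (hL y).symm
  have hw : ∀ T : Set P, wS r R dg T = wS r' R' dg T := by
    intro T
    funext z x
    show Wd (Up r R) (Dn r R) dg _ _ = Wd (Up r' R') (Dn r' R') dg _ _
    rw [hU, hD]
  have key := hW P r' R' dg hG' ((1 + a) / 2) (by linarith) (by linarith)
  clear hS
  subst hS'
  refine ⟨key.1, key.2.1, fun V0 hV0 hz => ?_⟩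
  rw [hw]
  exact key.2.2 V0 hV0 hz

end Pool.Agent.Helper15.SF
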